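import Mathlib

/-!
# Biorthogonal systems with both spans dense, for a space with separable dual
-/

namespace Pool.Agent.R202.WS

open Set TopologicalSpace

/-- general recursion: a sequence all of whose initial segments are good -/
theorem rec_choice {α : Type*} (x₀ : α) (Q : ℕ → (ℕ → α) → Prop)
    (hcongr : ∀ n (σ τ : ℕ → α), (∀ i < n, σ i = τ i) → Q n σ → Q n τ)
    (h0 : ∀ σ, Q 0 σ)
    (hstep : ∀ n σ, Q n σ → ∃ p, Q (n + 1) (Function.update σ n p)) :
    ∃ s : ℕ → α, ∀ n, Q n s := by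
  classical
  have : Nonempty α := ⟨x₀⟩
  choose! p hp using hstep
  let F : ℕ → (ℕ → α) := fun n =>
    Nat.rec (fun _ => x₀) (fun n σ => Function.update σ n (p n σ)) n
  have hF : ∀ n, F (n + 1) = Function.update (F n) n (p n (F n)) := fun n => rfl
  have hQ : ∀ n, Q n (F n) := by
    intro n
    induction n with
    | zero => exact h0 _
    | succ n ih => rw [hF]; exact hp n _ ih
  have hst : ∀ m n i, i < m → m ≤ n → F n i = F m i := by
    intro m n i hi hmn
    induction n, hmn using Nat.le_induction with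
    | base => rfl
    | succ n hmn ih => rw [hF, Function.update_of_ne (by omega), ih]
  refine ⟨fun i => F (i + 1) i, fun n => hcongr n (F n) _ (fun i hi => ?_) (hQ n)⟩
  exact hst (i + 1) n i (by omega) hi

variable {𝕜 : Type*} [RCLike 𝕜] {E : Type*} [NormedAddCommGroup E] [NormedSpace 𝕜 E]

/-- a functional separating a point from a closed subspace -/
theorem sep (S : Submodule 𝕜 E) (hS : IsClosed (S : Set E)) {x : E} (hx : x ∉ S) :
    ∃ φ : StrongDual 𝕜 E, (∀ s ∈ S, φ s = 0) ∧ φ x = 1 := by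
  have : IsClosed (S : Set E) := hS
  have hne : (S.mkQ x) ≠ 0 := by
    simpa using hx
  obtain ⟨h, hh⟩ := SeparatingDual.exists_eq_one (R := 𝕜) (V := E ⧸ S) hne
  refine ⟨h.comp (S.mkQL), fun s hs => ?_, ?_⟩
  · have : S.mkQL s = 0 := by simpa using hs
    simp [this]
  · simpa using hh

/-- density criterion -/
theorem dense_crit (S : Submodule 𝕜 E)
    (h : ∀ φ : StrongDual 𝕜 E, (∀ s ∈ S, φ s = 0) → φ = 0) : S.topologicalClosure = ⊤ := by
  rw [Submodule.eq_top_iff']
  intro x
  by_contra hx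
  obtain ⟨φ, h1, h2⟩ := sep S.topologicalClosure S.isClosed_topologicalClosure hx
  have := h φ (fun s hs => h1 s (S.le_topologicalClosure hs))
  rw [this] at h2
  simp at h2

/-- the remainder after subtraction of the coordinates -/
noncomputable def rem (σ : ℕ → E × StrongDual 𝕜 E) (n : ℕ) (z : E) : E :=
  z - ∑ i ∈ Finset.range n, (σ i).2 z • (σ i).1

theorem rem_apply {n : ℕ} {σ : ℕ → E × StrongDual 𝕜 E}
    (hσ : ∀ i < n, ∀ j < n, (σ i).2 (σ j).1 = if i = j then 1 else 0) (z : E) {i : ℕ}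
    (hi : i < n) : (σ i).2 (rem σ n z) = 0 := by
  unfold rem
  rw [map_sub, map_sum, sub_eq_zero, Finset.sum_eq_single i]
  · rw [map_smul, hσ i hi i hi, if_pos rfl, smul_eq_mul, mul_one]
  · intro j hj hji
    rw [map_smul, hσ i hi j (Finset.mem_range.1 hj), if_neg (Ne.symm hji), smul_zero]
  · intro h; exact absurd (Finset.mem_range.2 hi) h

theorem sum_mem (σ : ℕ → E × StrongDual 𝕜 E) (n : ℕ) (z : E) :
    ∑ i ∈ Finset.range n, (σ i).2 z • (σ i).1 ∈
      Submodule.span 𝕜 ((fun i => (σ i).1) '' {i | i < n}) :=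
  Submodule.sum_mem _ fun i hi => Submodule.smul_mem _ _
    (Submodule.subset_span ⟨i, Finset.mem_range.1 hi, rfl⟩)

/-- correction of a functional -/
noncomputable def cof (σ : ℕ → E × StrongDual 𝕜 E) (n : ℕ) (b : StrongDual 𝕜 E) :
    StrongDual 𝕜 E :=
  b - ∑ i ∈ Finset.range n, b (σ i).1 • (σ i).2

theorem cof_apply {n : ℕ} {σ : ℕ → E × StrongDual 𝕜 E}
    (hσ : ∀ i < n, ∀ j < n, (σ i).2 (σ j).1 = if i = j then 1 else 0) (b : StrongDual 𝕜 E)
    {i : ℕ} (hi : i < n) : cof σ n b (σ i).1 = 0 := by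
  unfold cof
  rw [sub_apply, sum_apply, sub_eq_zero,
    Finset.sum_eq_single i]
  · rw [smul_apply, hσ i hi i hi, if_pos rfl, smul_eq_mul, mul_one]
  · intro j hj hji
    rw [smul_apply, hσ j (Finset.mem_range.1 hj) i hi, if_neg hji, smul_zero]
  · intro h; exact absurd (Finset.mem_range.2 hi) h

theorem cof_sum_mem (σ : ℕ → E × StrongDual 𝕜 E) (n : ℕ) (b : StrongDual 𝕜 E) :
    ∑ i ∈ Finset.range n, b (σ i).1 • (σ i).2 ∈
      Submodule.span 𝕜 ((fun i => (σ i).2) '' {i | i < n}) :=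
  Submodule.sum_mem _ fun i hi => Submodule.smul_mem _ _
    (Submodule.subset_span ⟨i, Finset.mem_range.1 hi, rfl⟩)

/-- extension swallowing a vector -/
theorem extA (hE : ¬ FiniteDimensional 𝕜 E) {n : ℕ} {σ : ℕ → E × StrongDual 𝕜 E}
    (hσ : ∀ i < n, ∀ j < n, (σ i).2 (σ j).1 = if i = j then 1 else 0) (a : E) :
    ∃ p : E × StrongDual 𝕜 E, p.2 p.1 = 1 ∧ (∀ i < n, p.2 (σ i).1 = 0 ∧ (σ i).2 p.1 = 0) ∧
      a ∈ Submodule.span 𝕜 (insert p.1 ((fun i => (σ i).1) '' {i | i < n})) := by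
  set S' : Set E := (fun i => (σ i).1) '' {i | i < n} with hS'
  have hfin : S'.Finite := (Set.finite_lt_nat n).image _
  obtain ⟨z0, hz0, ha⟩ : ∃ z0, z0 ∉ Submodule.span 𝕜 S' ∧
      a ∈ Submodule.span 𝕜 (insert z0 S') := by
    by_cases h : a ∈ Submodule.span 𝕜 S'
    · obtain ⟨z0, hz0⟩ : ∃ z0, z0 ∉ Submodule.span 𝕜 S' := by
        by_contra hcon
        push Not at hcon
        apply hE
        have h1 : Submodule.span 𝕜 S' = ⊤ := Submodule.eq_top_iff'.2 hcon
        have h2 : (⊤ : Submodule 𝕜 E).FG := h1 ▸ Submodule.fg_span hfin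
        exact ⟨h2⟩
      exact ⟨z0, hz0, Submodule.span_mono (Set.subset_insert _ _) h⟩
    · exact ⟨a, h, Submodule.subset_span (Set.mem_insert _ _)⟩
  have hz : rem σ n z0 ≠ 0 := by
    intro h
    apply hz0
    have : z0 = ∑ i ∈ Finset.range n, (σ i).2 z0 • (σ i).1 := by
      rw [← sub_eq_zero]; exact h
    rw [this]
    exact sum_mem σ n z0
  obtain ⟨h, hh⟩ := SeparatingDual.exists_eq_one (R := 𝕜) hz
  refine ⟨(rem σ n z0, cof σ n h), ?_, fun i hi => ⟨cof_apply hσ h hi, rem_apply hσ z0 hi⟩, ?_⟩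
  · show cof σ n h (rem σ n z0) = 1
    unfold cof
    rw [sub_apply, sum_apply, hh,
      Finset.sum_eq_zero, sub_zero]
    intro i hi
    rw [smul_apply, rem_apply hσ z0 (Finset.mem_range.1 hi), smul_zero]
  · refine Submodule.span_le.2 ?_ ha
    intro y hy
    rcases hy with rfl | hy
    · have h1 : y = rem σ n y + ∑ i ∈ Finset.range n, (σ i).2 y • (σ i).1 := by
        unfold rem; abel
      have h2 : rem σ n y ∈ Submodule.span 𝕜 (insert (rem σ n y) S') :=
        Submodule.subset_span (Set.mem_insert _ _)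
      have h3 := Submodule.span_mono (R := 𝕜) (Set.subset_insert (rem σ n y) S') (sum_mem σ n y)
      have h4 := Submodule.add_mem _ h2 h3
      rw [← h1] at h4
      exact h4
    · exact Submodule.subset_span (Set.mem_insert_of_mem _ hy)

/-- extension swallowing a functional -/
theorem extB (hE : ¬ FiniteDimensional 𝕜 E) {n : ℕ} {σ : ℕ → E × StrongDual 𝕜 E}
    (hσ : ∀ i < n, ∀ j < n, (σ i).2 (σ j).1 = if i = j then 1 else 0) (b : StrongDual 𝕜 E) :
    ∃ p : E × StrongDual 𝕜 E, p.2 p.1 = 1 ∧ (∀ i < n, p.2 (σ i).1 = 0 ∧ (σ i).2 p.1 = 0) ∧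
      b ∈ Submodule.span 𝕜 (insert p.2 ((fun i => (σ i).2) '' {i | i < n})) := by
  set S' : Set (StrongDual 𝕜 E) := (fun i => (σ i).2) '' {i | i < n} with hS'
  have hb : b = cof σ n b + ∑ i ∈ Finset.range n, b (σ i).1 • (σ i).2 := by
    unfold cof; abel
  by_cases h0 : cof σ n b = 0
  · obtain ⟨p, h1, h2, -⟩ := extA hE hσ 0
    refine ⟨p, h1, h2, ?_⟩
    rw [hb, h0, zero_add]
    exact Submodule.span_mono (Set.subset_insert _ _) (cof_sum_mem σ n b)
  · obtain ⟨v, hv⟩ : ∃ v, cof σ n b v ≠ 0 := by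
      by_contra hcon
      push Not at hcon
      exact h0 (by ext v; simpa using hcon v)
    set y0 : E := (cof σ n b v)⁻¹ • v with hy0
    have hy1 : cof σ n b y0 = 1 := by
      rw [hy0, map_smul, smul_eq_mul, inv_mul_cancel₀ hv]
    refine ⟨(rem σ n y0, cof σ n b), ?_,
      fun i hi => ⟨cof_apply hσ b hi, rem_apply hσ y0 hi⟩, ?_⟩
    · show cof σ n b (rem σ n y0) = 1
      unfold rem
      rw [map_sub, hy1, map_sum, Finset.sum_eq_zero, sub_zero]
      intro i hi
      rw [map_smul, cof_apply hσ b (Finset.mem_range.1 hi), smul_zero]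
    · have h2 : cof σ n b ∈ Submodule.span 𝕜 (insert (cof σ n b) S') :=
        Submodule.subset_span (Set.mem_insert _ _)
      have h3 := Submodule.span_mono (R := 𝕜) (Set.subset_insert (cof σ n b) S')
        (cof_sum_mem σ n b)
      have h4 := Submodule.add_mem _ h2 h3
      rw [← hb] at h4
      exact h4

/-- biorthogonal sequences swallowing prescribed sequences -/
theorem exists_swallow (hE : ¬ FiniteDimensional 𝕜 E) (a : ℕ → E) (b : ℕ → StrongDual 𝕜 E) :
    ∃ (y : ℕ → E) (g : ℕ → StrongDual 𝕜 E), (∀ i j, g i (y j) = if i = j then 1 else 0) ∧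
      (∀ r, a r ∈ Submodule.span 𝕜 (Set.range y)) ∧
      ∀ r, b r ∈ Submodule.span 𝕜 (Set.range g) := by
  classical
  obtain ⟨s, hs⟩ := rec_choice (α := E × StrongDual 𝕜 E) (0, 0)
    (fun n σ => (∀ i < n, ∀ j < n, (σ i).2 (σ j).1 = if i = j then 1 else 0) ∧
      (∀ r, 2 * r < n → a r ∈ Submodule.span 𝕜 ((fun i => (σ i).1) '' {i | i < n})) ∧
      (∀ r, 2 * r + 1 < n → b r ∈ Submodule.span 𝕜 ((fun i => (σ i).2) '' {i | i < n})))
    (by
      rintro n σ τ h ⟨h1, h2, h3⟩
      have e1 : (fun i => (σ i).1) '' {i | i < n} = (fun i => (τ i).1) '' {i | i < n} :=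
        Set.image_congr (fun i hi => by simp [h i hi])
      have e2 : (fun i => (σ i).2) '' {i | i < n} = (fun i => (τ i).2) '' {i | i < n} :=
        Set.image_congr (fun i hi => by simp [h i hi])
      refine ⟨fun i hi j hj => ?_, fun r hr => ?_, fun r hr => ?_⟩
      · rw [← h i hi, ← h j hj]; exact h1 i hi j hj
      · rw [← e1]; exact h2 r hr
      · rw [← e2]; exact h3 r hr)
    (by
      intro σ
      exact ⟨fun i hi => absurd hi (Nat.not_lt_zero _), fun r hr => absurd hr (Nat.not_lt_zero _),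
        fun r hr => absurd hr (Nat.not_lt_zero _)⟩)
    (by
      rintro n σ ⟨h1, h2, h3⟩
      -- common part
      have key : ∀ p : E × StrongDual 𝕜 E, p.2 p.1 = 1 →
          (∀ i < n, p.2 (σ i).1 = 0 ∧ (σ i).2 p.1 = 0) →
          (∀ i < n + 1, ∀ j < n + 1, ((Function.update σ n p) i).2 ((Function.update σ n p) j).1 =
            if i = j then 1 else 0) := by
        intro p hp1 hp2 i hi j hj
        rcases Nat.lt_succ_iff_lt_or_eq.1 hi with hi | rfl
        · rcases Nat.lt_succ_iff_lt_or_eq.1 hj with hj | rfl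
          · rw [Function.update_of_ne hi.ne, Function.update_of_ne hj.ne, h1 i hi j hj]
          · rw [Function.update_of_ne hi.ne, Function.update_self, (hp2 i hi).2, if_neg hi.ne]
        · rcases Nat.lt_succ_iff_lt_or_eq.1 hj with hj | rfl
          · rw [Function.update_of_ne hj.ne, Function.update_self, (hp2 j hj).1,
              if_neg hj.ne']
          · rw [Function.update_self, hp1, if_pos rfl]
      have im1 : ∀ p : E × StrongDual 𝕜 E, insert p.1 ((fun i => (σ i).1) '' {i | i < n}) ⊆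
          (fun i => ((Function.update σ n p) i).1) '' {i | i < n + 1} := by
        intro p y hy
        rcases hy with rfl | ⟨i, hi, rfl⟩
        · exact ⟨n, Nat.lt_succ_self n, by simp⟩
        · refine ⟨i, Nat.lt_succ_of_lt hi, ?_⟩
          have : i ≠ n := ne_of_lt hi
          simp [Function.update_of_ne this]
      have im2 : ∀ p : E × StrongDual 𝕜 E, insert p.2 ((fun i => (σ i).2) '' {i | i < n}) ⊆
          (fun i => ((Function.update σ n p) i).2) '' {i | i < n + 1} := by
        intro p y hy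
        rcases hy with rfl | ⟨i, hi, rfl⟩
        · exact ⟨n, Nat.lt_succ_self n, by simp⟩
        · refine ⟨i, Nat.lt_succ_of_lt hi, ?_⟩
          have : i ≠ n := ne_of_lt hi
          simp [Function.update_of_ne this]
      rcases Nat.even_or_odd' n with ⟨m, hm | hm⟩
      · obtain ⟨p, hp1, hp2, hp3⟩ := extA hE h1 (a m)
        refine ⟨p, key p hp1 hp2, fun r hr => ?_, fun r hr => ?_⟩
        · rcases Nat.lt_succ_iff_lt_or_eq.1 hr with hr | hr
          · exact Submodule.span_mono ((Set.subset_insert _ _).trans (im1 p)) (h2 r hr)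
          · have : r = m := by omega
            rw [this]
            exact Submodule.span_mono (im1 p) hp3
        · have hr' : 2 * r + 1 < n := by omega
          exact Submodule.span_mono ((Set.subset_insert _ _).trans (im2 p)) (h3 r hr')
      · obtain ⟨p, hp1, hp2, hp3⟩ := extB hE h1 (b m)
        refine ⟨p, key p hp1 hp2, fun r hr => ?_, fun r hr => ?_⟩
        · have hr' : 2 * r < n := by omega
          exact Submodule.span_mono ((Set.subset_insert _ _).trans (im1 p)) (h2 r hr')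
        · rcases Nat.lt_succ_iff_lt_or_eq.1 hr with hr | hr
          · exact Submodule.span_mono ((Set.subset_insert _ _).trans (im2 p)) (h3 r hr)
          · have : r = m := by omega
            rw [this]
            exact Submodule.span_mono (im2 p) hp3)
  refine ⟨fun i => (s i).1, fun i => (s i).2, fun i j => ?_, fun r => ?_, fun r => ?_⟩
  · exact (hs (max i j + 1)).1 i (by omega) j (by omega)
  · exact Submodule.span_mono (Set.image_subset_range _ _) ((hs (2 * r + 1)).2.1 r (by omega))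
  · exact Submodule.span_mono (Set.image_subset_range _ _) ((hs (2 * r + 2)).2.2 r (by omega))

/-- a sequence total over the dual -/
theorem exists_total [SeparableSpace (StrongDual 𝕜 E)] :
    ∃ a : ℕ → E, ∀ φ : StrongDual 𝕜 E, (∀ n, φ (a n) = 0) → φ = 0 := by
  obtain ⟨b, hb⟩ := exists_dense_seq (StrongDual 𝕜 E)
  have hex : ∀ n, ∃ a : E, ‖a‖ ≤ 1 ∧ ‖b n‖ ≤ 2 * ‖b n a‖ := by
    intro n
    by_cases h : b n = 0
    · exact ⟨0, by simp, by simp [h]⟩
    · have hpos : 0 < ‖b n‖ := norm_pos_iff.2 h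
      obtain ⟨a, ha1, ha2⟩ := (b n).exists_lt_apply_of_lt_opNorm (r := ‖b n‖ / 2) (by linarith)
      exact ⟨a, ha1.le, by linarith⟩
  choose a ha1 ha2 using hex
  refine ⟨a, fun φ hφ => ?_⟩
  by_contra hne
  have hpos : 0 < ‖φ‖ := norm_pos_iff.2 hne
  obtain ⟨_, ⟨n, rfl⟩, hψ⟩ := Metric.mem_closure_iff.1 (hb φ) (‖φ‖ / 4) (by linarith)
  rw [dist_eq_norm] at hψ
  have h1 : ‖b n (a n)‖ ≤ ‖φ - b n‖ := by
    have : b n (a n) = -((φ - b n) (a n)) := by
      rw [sub_apply, hφ n]; ring
    rw [this, norm_neg]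
    calc ‖(φ - b n) (a n)‖ ≤ ‖φ - b n‖ * ‖a n‖ := (φ - b n).le_opNorm _
      _ ≤ ‖φ - b n‖ * 1 := by gcongr; exact ha1 n
      _ = _ := mul_one _
  have h2 : ‖φ‖ ≤ ‖φ - b n‖ + ‖b n‖ := by
    calc ‖φ‖ = ‖(φ - b n) + b n‖ := by rw [sub_add_cancel]
      _ ≤ _ := norm_add_le _ _
  have := ha2 n
  linarith

/-- a biorthogonal system with both spans dense -/
theorem exists_shrinking (hE : ¬ FiniteDimensional 𝕜 E) [SeparableSpace (StrongDual 𝕜 E)] :
    ∃ (y : ℕ → E) (g : ℕ → StrongDual 𝕜 E), (∀ i j, g i (y j) = if i = j then 1 else 0) ∧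
      Dense (Submodule.span 𝕜 (Set.range y) : Set E) ∧
      Dense (Submodule.span 𝕜 (Set.range g) : Set (StrongDual 𝕜 E)) := by
  obtain ⟨a, ha⟩ := exists_total (𝕜 := 𝕜) (E := E)
  obtain ⟨b, hb⟩ := exists_dense_seq (StrongDual 𝕜 E)
  obtain ⟨y, g, h1, h2, h3⟩ := exists_swallow hE a b
  refine ⟨y, g, h1, ?_, ?_⟩
  · rw [Submodule.dense_iff_topologicalClosure_eq_top]
    refine dense_crit _ (fun φ hφ => ha φ (fun n => hφ _ (h2 n)))
  · refine hb.mono ?_
    rintro _ ⟨r, rfl⟩
    exact h3 r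

end Pool.Agent.R202.WS
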