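import Pool.Agent.R202.WS.W

/-!
# Strong biorthogonal systems in the dual
-/

namespace Pool.Agent.R202.WS

open Set TopologicalSpace

variable {𝕜 : Type*} [RCLike 𝕜] {E : Type*} [NormedAddCommGroup E] [NormedSpace 𝕜 E]

theorem zs (u : StrongDual 𝕜 E) : (0 : 𝕜) • u = 0 := zero_smul 𝕜 u

theorem as' (a b : 𝕜) (u : StrongDual 𝕜 E) : (a + b) • u = a • u + b • u := add_smul a b u

theorem ss' (a b : 𝕜) (u : StrongDual 𝕜 E) : (a - b) • u = a • u - b • u := sub_smul a b u

theorem fs' {ι : Type*} (s : Finset ι) (F : ι → 𝕜) (u : StrongDual 𝕜 E) :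
    (∑ i ∈ s, F i) • u = ∑ i ∈ s, F i • u := by
  classical
  induction s using Finset.induction_on with
  | empty => rw [Finset.sum_empty, Finset.sum_empty, zs]
  | insert a s ha ih => rw [Finset.sum_insert ha, Finset.sum_insert ha, as', ih]

theorem expand (y : ℕ → E) (g : ℕ → StrongDual 𝕜 E)
    (hb : ∀ i j, g i (y j) = if i = j then 1 else 0) (n : ℕ) {u : StrongDual 𝕜 E}
    (hu : u ∈ Submodule.span 𝕜 (g '' {i | i < n})) :
    u = ∑ i ∈ Finset.range n, u (y i) • g i := by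
  induction hu using Submodule.span_induction with
  | mem u h =>
    obtain ⟨i, hi, rfl⟩ := h
    rw [Finset.sum_eq_single i]
    · rw [hb, if_pos rfl, one_smul]
    · intro j _ hj
      rw [hb, if_neg (Ne.symm hj), zs]
    · intro h; exact absurd (Finset.mem_range.2 hi) h
  | zero =>
    rw [Finset.sum_eq_zero]
    intro i _
    rw [zero_apply, zs]
  | add a b _ _ ha hb =>
    conv_lhs => rw [ha, hb]
    rw [← Finset.sum_add_distrib]
    refine Finset.sum_congr rfl fun i _ => ?_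
    rw [add_apply, as']
  | smul c a _ ha =>
    conv_lhs => rw [ha]
    rw [Finset.smul_sum]
    refine Finset.sum_congr rfl fun i _ => ?_
    rw [smul_apply, smul_smul, smul_eq_mul]

theorem sum_if {X : Type*} [AddCommGroup X] [Module 𝕜 X] {w c : ℕ} (hwc : w ≤ c)
    (F : ℕ → 𝕜) (h : ℕ → X) :
    ∑ p : Fin c, (if (p : ℕ) < w then F p else 0) • h p = ∑ p ∈ Finset.range w, F p • h p := by
  rw [← Finset.sum_range (fun p => (if p < w then F p else 0) • h p)]
  rw [← Finset.sum_subset (Finset.range_mono hwc)]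
  · refine Finset.sum_congr rfl fun p hp => ?_
    rw [if_pos (Finset.mem_range.1 hp)]
  · intro p _ hp
    rw [if_neg (by simpa using hp), zero_smul]

/-- The combinatorial data of the construction. -/
structure Data (y : ℕ → E) (g : ℕ → StrongDual 𝕜 E) where
  m : ℕ → ℕ
  n : ℕ → ℕ
  m0 : m 0 = 0
  mn : ∀ k, m k < n k
  nm : ∀ k, n k ≤ m (k + 1)
  win : ∀ k, ∀ φ : StrongDual 𝕜 E, ∃ ψ ∈ Submodule.span 𝕜 (g '' {i | i < n k}),
      (∀ i < m k, ψ (y i) = φ (y i)) ∧ ‖ψ‖ ≤ 2 * ‖φ‖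
  sepn : ∀ k, ∀ u ∈ Submodule.span 𝕜 (g '' {i | i < n k}),
      ∀ w ∈ Submodule.span 𝕜 (g '' {i | m (k + 1) ≤ i}), ‖u‖ ≤ 2 * ‖u + w‖

theorem exists_data (y : ℕ → E) (g : ℕ → StrongDual 𝕜 E)
    (hb : ∀ i j, g i (y j) = if i = j then 1 else 0)
    (hdy : Dense (Submodule.span 𝕜 (Set.range y) : Set E))
    (hdg : Dense (Submodule.span 𝕜 (Set.range g) : Set (StrongDual 𝕜 E))) :
    Nonempty (Data y g) := by
  choose N hN1 hN2 using window_dual y g hb hdg
  choose M hM1 hM2 using separation y g hb hdy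
  let m : ℕ → ℕ := fun k => Nat.rec 0 (fun _ a => M (N a)) k
  exact ⟨⟨m, fun k => N (m k), rfl, fun k => hN1 _, fun k => hM1 _, fun k => hN2 _,
    fun k => hM2 _⟩⟩

section Main

variable {y : ℕ → E} {g : ℕ → StrongDual 𝕜 E} (D : Data y g)

/-- block length -/
def Data.c (k : ℕ) : ℕ := D.m (k + 1) - D.m k

/-- window length -/
def Data.w (k : ℕ) : ℕ := D.n k - D.m k

theorem Data.w_le (k : ℕ) : D.w k ≤ D.c k := Nat.sub_le_sub_right (D.nm k) _

theorem Data.m_succ (k : ℕ) : D.m (k + 1) = D.m k + D.c k := by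
  have := D.mn k
  have := D.nm k
  unfold Data.c
  omega

theorem Data.n_eq (k : ℕ) : D.n k = D.m k + D.w k := by
  have := D.mn k
  unfold Data.w
  omega

theorem Data.mono : StrictMono D.m := strictMono_nat_of_lt_succ fun k =>
  lt_of_lt_of_le (D.mn k) (D.nm k)

/-- the block matrices -/
structure Mats (D : Data y g) where
  B : ∀ k, Matrix (Fin (D.c k)) (Fin (D.c k)) 𝕜
  unit : ∀ k, IsUnit (B k).det

variable {D}

/-- new functionals -/
noncomputable def Mats.f (T : Mats D) (s : Σ k, Fin (D.c k)) : StrongDual 𝕜 E :=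
  ∑ p, T.B s.1 s.2 p • g (D.m s.1 + p)

/-- new vectors -/
noncomputable def Mats.x (T : Mats D) (s : Σ k, Fin (D.c k)) : E :=
  ∑ p, (T.B s.1)⁻¹ p s.2 • y (D.m s.1 + p)

theorem Mats.biorth (T : Mats D) (hb : ∀ i j, g i (y j) = if i = j then 1 else 0)
    [DecidableEq (Σ k, Fin (D.c k))] (s t : Σ k, Fin (D.c k)) :
    T.f s (T.x t) = if s = t then 1 else 0 := by
  obtain ⟨k, i⟩ := s
  obtain ⟨l, j⟩ := t
  have hexp : T.f ⟨k, i⟩ (T.x ⟨l, j⟩) = ∑ p : Fin (D.c k), ∑ q : Fin (D.c l),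
      T.B k i p * ((T.B l)⁻¹ q j * (if D.m k + (p : ℕ) = D.m l + q then 1 else 0)) := by
    unfold Mats.f Mats.x
    rw [sum_apply]
    refine Finset.sum_congr rfl fun p _ => ?_
    rw [smul_apply, map_sum, smul_eq_mul, Finset.mul_sum]
    refine Finset.sum_congr rfl fun q _ => ?_
    rw [map_smul, hb, smul_eq_mul]
  rw [hexp]
  rcases eq_or_ne k l with rfl | hkl
  · have h1 : ∀ p : Fin (D.c k), ∑ q : Fin (D.c k),
        T.B k i p * ((T.B k)⁻¹ q j * (if D.m k + (p : ℕ) = D.m k + q then 1 else 0)) =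
        T.B k i p * (T.B k)⁻¹ p j := by
      intro p
      rw [Finset.sum_eq_single p]
      · rw [if_pos rfl, mul_one]
      · intro q _ hq
        rw [if_neg, mul_zero, mul_zero]
        intro h
        exact hq (Fin.ext (by omega))
      · intro h; exact absurd (Finset.mem_univ _) h
    rw [Finset.sum_congr rfl (fun p _ => h1 p)]
    have h2 : ∑ p, T.B k i p * (T.B k)⁻¹ p j = (T.B k * (T.B k)⁻¹) i j := rfl
    rw [h2, Matrix.mul_nonsing_inv _ (T.unit k), Matrix.one_apply]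
    by_cases hij : i = j
    · rw [if_pos hij, if_pos (by rw [hij])]
    · rw [if_neg hij, if_neg]
      intro h
      apply hij
      simpa using h
  · rw [if_neg (fun h => hkl (congrArg Sigma.fst h))]
    refine Finset.sum_eq_zero fun p _ => Finset.sum_eq_zero fun q _ => ?_
    rw [if_neg, mul_zero, mul_zero]
    intro h
    have hp := p.2
    have hq := q.2
    rcases lt_or_gt_of_ne hkl with h1 | h1
    · have h2 := D.mono.monotone (Nat.succ_le_of_lt h1)
      have h3 := D.m_succ k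
      have h4 : D.m (k + 1) ≤ D.m l := h2
      omega
    · have h2 := D.mono.monotone (Nat.succ_le_of_lt h1)
      have h3 := D.m_succ l
      have h4 : D.m (l + 1) ≤ D.m k := h2
      omega

/-- the coefficients of the block -/
theorem Mats.coef (T : Mats D) (φ : StrongDual 𝕜 E) (k : ℕ) (p : Fin (D.c k)) :
    ∑ j, φ (T.x ⟨k, j⟩) * T.B k j p = φ (y (D.m k + p)) := by
  have h1 : ∀ j, φ (T.x ⟨k, j⟩) = ∑ q : Fin (D.c k), φ (y (D.m k + q)) * (T.B k)⁻¹ q j := by
    intro j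
    unfold Mats.x
    rw [map_sum]
    refine Finset.sum_congr rfl fun q _ => ?_
    rw [map_smul, smul_eq_mul, mul_comm]
  have h2 : ∑ j, φ (T.x ⟨k, j⟩) * T.B k j p =
      Matrix.vecMul (Matrix.vecMul (fun q : Fin (D.c k) => φ (y (D.m k + q))) (T.B k)⁻¹) (T.B k) p := by
    show _ = ∑ j, (Matrix.vecMul (fun q : Fin (D.c k) => φ (y (D.m k + q))) (T.B k)⁻¹) j * T.B k j p
    refine Finset.sum_congr rfl fun j _ => ?_
    rw [h1]
    rfl
  rw [h2, Matrix.vecMul_vecMul, Matrix.nonsing_inv_mul _ (T.unit k), Matrix.vecMul_one]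

theorem Mats.blocksum (T : Mats D) (k : ℕ) (b : Fin (D.c k) → 𝕜) :
    ∑ j, b j • T.f ⟨k, j⟩ = ∑ p : Fin (D.c k), (∑ j, b j * T.B k j p) • g (D.m k + p) := by
  unfold Mats.f
  calc ∑ j, b j • ∑ p : Fin (D.c k), T.B k j p • g (D.m k + p)
      = ∑ j, ∑ p : Fin (D.c k), (b j * T.B k j p) • g (D.m k + p) := by
        refine Finset.sum_congr rfl fun j _ => ?_
        rw [Finset.smul_sum]
        refine Finset.sum_congr rfl fun p _ => ?_
        rw [smul_smul]
    _ = ∑ p : Fin (D.c k), ∑ j, (b j * T.B k j p) • g (D.m k + p) := Finset.sum_comm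
    _ = _ := by
        refine Finset.sum_congr rfl fun p _ => ?_
        rw [fs']

/-- partial sums -/
noncomputable def PS (y : ℕ → E) (g : ℕ → StrongDual 𝕜 E) (φ : StrongDual 𝕜 E) (n : ℕ) :
    StrongDual 𝕜 E := ∑ i ∈ Finset.range n, φ (y i) • g i

theorem PS_succ (φ : StrongDual 𝕜 E) (k : ℕ) :
    PS y g φ (D.m (k + 1)) = PS y g φ (D.m k) +
      ∑ p : Fin (D.c k), φ (y (D.m k + p)) • g (D.m k + p) := by
  unfold PS
  rw [D.m_succ, Finset.sum_range_add, Finset.sum_range (fun p => φ (y (D.m k + p)) • g (D.m k + p))]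

theorem Mats.PS_mem (T : Mats D) (A : Set (Σ k, Fin (D.c k))) (φ : StrongDual 𝕜 E)
    (hφ : ∀ s, s ∉ A → φ (T.x s) = 0) (k : ℕ) :
    PS y g φ (D.m k) ∈ Submodule.span 𝕜 (T.f '' A) := by
  induction k with
  | zero =>
    unfold PS
    rw [D.m0, Finset.range_zero, Finset.sum_empty]
    exact Submodule.zero_mem _
  | succ k ih =>
    rw [PS_succ]
    refine Submodule.add_mem _ ih ?_
    have h1 := T.blocksum k (fun j => φ (T.x ⟨k, j⟩))
    simp only [T.coef φ k] at h1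
    rw [← h1]
    refine Submodule.sum_mem _ fun j _ => ?_
    by_cases hj : (⟨k, j⟩ : Σ k, Fin (D.c k)) ∈ A
    · exact Submodule.smul_mem _ _ (Submodule.subset_span ⟨_, hj, rfl⟩)
    · rw [hφ _ hj, zs]
      exact Submodule.zero_mem _

theorem represent (hdg : Dense (Submodule.span 𝕜 (Set.range g) : Set (StrongDual 𝕜 E)))
    (φ : StrongDual 𝕜 E) {ε : ℝ} (hε : 0 < ε) :
    ∃ k0, ∀ k ≥ k0, ∃ ψ ∈ Submodule.span 𝕜 (g '' {i | i < D.n k}),
      (∀ i < D.m k, ψ (y i) = φ (y i)) ∧ ‖φ - ψ‖ ≤ ε := by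
  obtain ⟨z, hz, hd⟩ := Metric.mem_closure_iff.1 (hdg φ) (ε / 3) (by positivity)
  obtain ⟨n, hn⟩ := mem_initial g hz
  rw [dist_eq_norm] at hd
  refine ⟨n, fun k hk => ?_⟩
  obtain ⟨χ, h1, h2, h3⟩ := D.win k (φ - z)
  have hmk : k ≤ D.m k := D.mono.id_le k
  have hmn := D.mn k
  refine ⟨z + χ, Submodule.add_mem _ (Submodule.span_mono (Set.image_mono
    fun i (hi : i < n) => ?_) hn) h1, fun i hi => ?_, ?_⟩
  · show i < D.n k
    omega
  · rw [add_apply, h2 i hi, sub_apply]; ring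
  · have : φ - (z + χ) = (φ - z) - χ := by abel
    rw [this]
    calc _ ≤ ‖φ - z‖ + ‖χ‖ := norm_sub_le _ _
      _ ≤ ε := by linarith

end Main

end Pool.Agent.R202.WS
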