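import Pool.Agent.R202.WS.F

/-!
# Strong biorthogonal systems in the dual: the main estimate
-/

namespace Pool.Agent.R202.WS

open Set TopologicalSpace

variable {𝕜 : Type*} [RCLike 𝕜] {E : Type*} [NormedAddCommGroup E] [NormedSpace 𝕜 E]
variable {y : ℕ → E} {g : ℕ → StrongDual 𝕜 E}

/-- size of the vectors up to the end of block `k` -/
noncomputable def Ysum (D : Data y g) (k : ℕ) : ℝ := 1 + ∑ i ∈ Finset.range (D.m (k + 1)), ‖y i‖

theorem Ysum_pos (D : Data y g) (k : ℕ) : 0 < Ysum D k := by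
  unfold Ysum
  have : 0 ≤ ∑ i ∈ Finset.range (D.m (k + 1)), ‖y i‖ := Finset.sum_nonneg fun _ _ => norm_nonneg _
  linarith

theorem le_Ysum (D : Data y g) (k : ℕ) (p : Fin (D.c k)) : ‖y (D.m k + p)‖ ≤ Ysum D k := by
  unfold Ysum
  have h1 : D.m k + (p : ℕ) ∈ Finset.range (D.m (k + 1)) := by
    rw [Finset.mem_range, D.m_succ]
    have := p.2
    omega
  have := Finset.single_le_sum (f := fun i => ‖y i‖) (fun _ _ => norm_nonneg _) h1
  linarith [this]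

/-- good matrices -/
structure Good (D : Data y g) (T : Mats D) : Prop where
  one : ∀ k, ∀ A : Finset (Fin (D.c k)), D.w k ≤ A.card → ∀ (γ : Fin (D.c k) → 𝕜) (M : ℝ),
      (∀ p : Fin (D.c k), (p : ℕ) < D.w k → ‖γ p‖ ≤ M * Ysum D k) → 0 ≤ M →
      ∃ β : Fin (D.c k) → 𝕜, (∀ j, j ∉ A → β j = 0) ∧
        ‖∑ j, β j • T.f ⟨k, j⟩ - ∑ p : Fin (D.c k),
          (if (p : ℕ) < D.w k then γ p else 0) • g (D.m k + p)‖ ≤ M / (k + 1)
  two : ∀ k, ∀ A : Finset (Fin (D.c k)), A.card ≤ D.w k → ∀ (β γ : Fin (D.c k) → 𝕜) (M : ℝ),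
      (∀ j, j ∉ A → β j = 0) → (∀ p, ∑ j, β j * T.B k j p = γ p) →
      (∀ p : Fin (D.c k), (p : ℕ) < D.w k → ‖γ p‖ ≤ M * Ysum D k) → 0 ≤ M →
        ‖∑ p : Fin (D.c k), γ p • g (D.m k + p) - ∑ p : Fin (D.c k),
          (if (p : ℕ) < D.w k then γ p else 0) • g (D.m k + p)‖ ≤ M / (k + 1)

theorem exists_good (D : Data y g) : ∃ T : Mats D, Good D T := by
  have hη : ∀ k : ℕ, 0 < 1 / ((k + 1 : ℝ) * Ysum D k) := fun k => by
    have := Ysum_pos D k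
    positivity
  choose B h1 h2 h3 using fun k => block (𝕜 := 𝕜) (D.c k) (D.w k) (D.w_le k)
    (fun p : Fin (D.c k) => g (D.m k + p)) (hη k)
  have hM : ∀ (k : ℕ) (M : ℝ), 1 / ((k + 1 : ℝ) * Ysum D k) * (M * Ysum D k) = M / (k + 1) := by
    intro k M
    have := (Ysum_pos D k).ne'
    have h5 : (k + 1 : ℝ) ≠ 0 := by positivity
    field_simp
  refine ⟨⟨B, h1⟩, ⟨?_, ?_⟩⟩
  · intro k A hA γ M hγ hM0
    obtain ⟨β, hβ1, hβ2⟩ := h2 k A hA γ (M * Ysum D k) hγ (mul_nonneg hM0 (Ysum_pos D k).le)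
    rw [hM] at hβ2
    exact ⟨β, hβ1, hβ2⟩
  · intro k A hA β γ M hβ hβγ hγ hM0
    have := h3 k A hA β γ (M * Ysum D k) hβ hβγ hγ (mul_nonneg hM0 (Ysum_pos D k).le)
    rw [hM] at this
    exact this

theorem span_sub {D : Data y g} {k : ℕ} {ψ : StrongDual 𝕜 E}
    (hb : ∀ i j, g i (y j) = if i = j then 1 else 0)
    (hψ : ψ ∈ Submodule.span 𝕜 (g '' {i | i < D.n k})) {φ : StrongDual 𝕜 E}
    (hφ : ∀ i < D.m k, ψ (y i) = φ (y i)) :
    ψ = PS y g φ (D.m k) + ∑ p : Fin (D.c k),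
      (if (p : ℕ) < D.w k then ψ (y (D.m k + p)) else 0) • g (D.m k + p) := by
  have h1 := expand y g hb (D.n k) hψ
  rw [D.n_eq, Finset.sum_range_add] at h1
  rw [sum_if (D.w_le k) (fun p => ψ (y (D.m k + p))) (fun p => g (D.m k + p))]
  conv_lhs => rw [h1]
  congr 1
  unfold PS
  refine Finset.sum_congr rfl fun i hi => ?_
  rw [hφ i (Finset.mem_range.1 hi)]

/-- the main estimate at stage `k` -/
theorem stage {D : Data y g} {T : Mats D} (hT : Good D T)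
    (hb : ∀ i j, g i (y j) = if i = j then 1 else 0) (A : Set (Σ k, Fin (D.c k)))
    (φ : StrongDual 𝕜 E) (hφ : ∀ s, s ∉ A → φ (T.x s) = 0) {k : ℕ} {ε : ℝ}
    (ψ : StrongDual 𝕜 E) (hψ : ψ ∈ Submodule.span 𝕜 (g '' {i | i < D.n k}))
    (hψφ : ∀ i < D.m k, ψ (y i) = φ (y i)) (hψε : ‖φ - ψ‖ ≤ ε)
    (ψ' : StrongDual 𝕜 E) (hψ' : ψ' ∈ Submodule.span 𝕜 (g '' {i | i < D.n (k + 1)}))
    (hψφ' : ∀ i < D.m (k + 1), ψ' (y i) = φ (y i)) (hψε' : ‖φ - ψ'‖ ≤ ε) :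
    ∃ u ∈ Submodule.span 𝕜 (T.f '' A), ‖φ - u‖ ≤ 5 * ε + 3 * (‖φ‖ + ε) / (k + 1) := by
  classical
  have hε : 0 ≤ ε := (norm_nonneg _).trans hψε
  have hk : (0 : ℝ) < k + 1 := by positivity
  set A' : Finset (Fin (D.c k)) := Finset.univ.filter fun j => (⟨k, j⟩ : Σ k, Fin (D.c k)) ∈ A
    with hA'
  have hPA := T.PS_mem A φ hφ
  by_cases hcard : D.w k ≤ A'.card
  · -- many indices
    obtain ⟨β, hβ1, hβ2⟩ := hT.one k A' hcard (fun p => ψ (y (D.m k + p))) (‖φ‖ + ε) (by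
      intro p _
      have h1 : ‖ψ‖ ≤ ‖φ‖ + ε := by
        calc ‖ψ‖ = ‖φ - (φ - ψ)‖ := by rw [sub_sub_cancel]
          _ ≤ ‖φ‖ + ‖φ - ψ‖ := norm_sub_le _ _
          _ ≤ _ := by linarith
      calc ‖ψ (y (D.m k + p))‖ ≤ ‖ψ‖ * ‖y (D.m k + p)‖ := ψ.le_opNorm _
        _ ≤ (‖φ‖ + ε) * Ysum D k := mul_le_mul h1 (le_Ysum D k p) (norm_nonneg _) (by positivity))
      (by positivity)
    refine ⟨PS y g φ (D.m k) + ∑ j, β j • T.f ⟨k, j⟩, Submodule.add_mem _ (hPA k)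
      (Submodule.sum_mem _ fun j _ => ?_), ?_⟩
    · by_cases hj : (⟨k, j⟩ : Σ k, Fin (D.c k)) ∈ A
      · exact Submodule.smul_mem _ _ (Submodule.subset_span ⟨_, hj, rfl⟩)
      · rw [hβ1 j (by simpa [hA'] using hj), zs]
        exact Submodule.zero_mem _
    · have h1 := span_sub hb hψ hψφ
      have h0 : PS y g φ (D.m k) = ψ - ∑ p : Fin (D.c k),
            (if (p : ℕ) < D.w k then ψ (y (D.m k + p)) else 0) • g (D.m k + p) :=
        eq_sub_of_add_eq h1.symm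
      have h2 : φ - (PS y g φ (D.m k) + ∑ j, β j • T.f ⟨k, j⟩) = (φ - ψ) -
          (∑ j, β j • T.f ⟨k, j⟩ - ∑ p : Fin (D.c k),
            (if (p : ℕ) < D.w k then ψ (y (D.m k + p)) else 0) • g (D.m k + p)) := by
        rw [h0]
        abel
      rw [h2]
      calc _ ≤ ‖φ - ψ‖ + ‖∑ j, β j • T.f ⟨k, j⟩ - ∑ p : Fin (D.c k),
            (if (p : ℕ) < D.w k then ψ (y (D.m k + p)) else 0) • g (D.m k + p)‖ := norm_sub_le _ _
        _ ≤ ε + (‖φ‖ + ε) / (k + 1) := add_le_add hψε hβ2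
        _ ≤ 5 * ε + 3 * (‖φ‖ + ε) / (k + 1) := by
            have : (‖φ‖ + ε) / (k + 1) ≤ 3 * (‖φ‖ + ε) / (k + 1) := by
              gcongr
              nlinarith [norm_nonneg φ]
            linarith
  · -- few indices
    push Not at hcard
    set TW : StrongDual 𝕜 E := ∑ p : Fin (D.c k),
      (if (p : ℕ) < D.w k then φ (y (D.m k + p)) else 0) • g (D.m k + p) with hTW
    set Tk : StrongDual 𝕜 E := ∑ p : Fin (D.c k), φ (y (D.m k + p)) • g (D.m k + p) with hTk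
    have hP : PS y g φ (D.m (k + 1)) = PS y g φ (D.m k) + Tk := PS_succ φ k
    have hTT : ‖Tk - TW‖ ≤ ‖φ‖ / (k + 1) := by
      refine hT.two k A' hcard.le (fun j => φ (T.x ⟨k, j⟩)) (fun p => φ (y (D.m k + p))) ‖φ‖
        (fun j hj => hφ _ ?_) (T.coef φ k) ?_ (norm_nonneg _)
      · simpa [hA'] using hj
      · intro p _
        calc ‖φ (y (D.m k + p))‖ ≤ ‖φ‖ * ‖y (D.m k + p)‖ := φ.le_opNorm _
          _ ≤ ‖φ‖ * Ysum D k := mul_le_mul_of_nonneg_left (le_Ysum D k p) (norm_nonneg _)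
    refine ⟨PS y g φ (D.m (k + 1)), hPA (k + 1), ?_⟩
    set U : StrongDual 𝕜 E := ψ - PS y g φ (D.m k) - TW with hU
    set W : StrongDual 𝕜 E := -(ψ' - PS y g φ (D.m (k + 1))) with hW
    have hUmem : U ∈ Submodule.span 𝕜 (g '' {i | i < D.n k}) := by
      have h1 : ∀ i, i < D.n k → g i ∈ Submodule.span 𝕜 (g '' {i | i < D.n k}) := fun i hi =>
        Submodule.subset_span ⟨i, hi, rfl⟩
      refine Submodule.sub_mem _ (Submodule.sub_mem _ hψ ?_) ?_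
      · refine Submodule.sum_mem _ fun i hi => Submodule.smul_mem _ _ (h1 i ?_)
        have := Finset.mem_range.1 hi
        have := D.mn k
        omega
      · refine Submodule.sum_mem _ fun p _ => ?_
        split_ifs with hp
        · refine Submodule.smul_mem _ _ (h1 _ ?_)
          have := D.n_eq k
          omega
        · rw [zs]; exact Submodule.zero_mem _
    have hWmem : W ∈ Submodule.span 𝕜 (g '' {i | D.m (k + 1) ≤ i}) := by
      have h1 := span_sub hb hψ' hψφ'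
      have h2 : ψ' - PS y g φ (D.m (k + 1)) = ∑ p : Fin (D.c (k + 1)),
          (if (p : ℕ) < D.w (k + 1) then ψ' (y (D.m (k + 1) + p)) else 0) •
            g (D.m (k + 1) + p) := by
        conv_lhs => rw [h1]
        abel
      rw [hW, h2]
      refine Submodule.neg_mem _ (Submodule.sum_mem _ fun p _ => Submodule.smul_mem _ _
        (Submodule.subset_span ⟨_, ?_, rfl⟩))
      show D.m (k + 1) ≤ D.m (k + 1) + p
      omega
    have hUW : ‖U + W‖ ≤ 2 * ε + ‖φ‖ / (k + 1) := by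
      have h1 : U + W = (φ - ψ') - (φ - ψ) + (Tk - TW) := by
        rw [hU, hW, hP]; abel
      rw [h1]
      calc _ ≤ ‖(φ - ψ') - (φ - ψ)‖ + ‖Tk - TW‖ := norm_add_le _ _
        _ ≤ (‖φ - ψ'‖ + ‖φ - ψ‖) + ‖Tk - TW‖ := by gcongr; exact norm_sub_le _ _
        _ ≤ _ := by linarith
    have hUn := D.sepn k U hUmem W hWmem
    have h3 : φ - PS y g φ (D.m (k + 1)) = (φ - ψ) + U - (Tk - TW) := by
      rw [hU, hP]; abel
    rw [h3]
    have hd0 : 0 ≤ ‖φ‖ / (k + 1) := by positivity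
    have hd1 : ‖φ‖ / (k + 1) * 3 ≤ 3 * (‖φ‖ + ε) / (k + 1) := by
      rw [mul_comm, mul_div_assoc', mul_add]
      gcongr
      linarith
    calc _ ≤ ‖(φ - ψ) + U‖ + ‖Tk - TW‖ := norm_sub_le _ _
      _ ≤ (‖φ - ψ‖ + ‖U‖) + ‖Tk - TW‖ := by gcongr; exact norm_add_le _ _
      _ ≤ (ε + 2 * (2 * ε + ‖φ‖ / (k + 1))) + ‖φ‖ / (k + 1) := by linarith
      _ ≤ _ := by linarith

/-- strength -/
theorem strong {D : Data y g} {T : Mats D} (hT : Good D T)
    (hb : ∀ i j, g i (y j) = if i = j then 1 else 0)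
    (hdg : Dense (Submodule.span 𝕜 (Set.range g) : Set (StrongDual 𝕜 E)))
    (A : Set (Σ k, Fin (D.c k))) (φ : StrongDual 𝕜 E) (hφ : ∀ s, s ∉ A → φ (T.x s) = 0) :
    φ ∈ (Submodule.span 𝕜 (T.f '' A)).topologicalClosure := by
  rw [← SetLike.mem_coe, Submodule.topologicalClosure_coe, Metric.mem_closure_iff]
  intro r hr
  have hε : 0 < r / 12 := by positivity
  obtain ⟨k0, hk0⟩ := represent (D := D) hdg φ hε
  obtain ⟨k1, hk1⟩ := exists_nat_gt (3 * (‖φ‖ + r / 12) / (r / 12))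
  set k := max k0 k1 with hk
  obtain ⟨ψ, h1, h2, h3⟩ := hk0 k (le_max_left _ _)
  obtain ⟨ψ', h1', h2', h3'⟩ := hk0 (k + 1) ((le_max_left _ _).trans (Nat.le_succ _))
  obtain ⟨u, hu, hu'⟩ := stage hT hb A φ hφ ψ h1 h2 h3 ψ' h1' h2' h3'
  refine ⟨u, hu, ?_⟩
  rw [dist_eq_norm]
  have h4 : 3 * (‖φ‖ + r / 12) / (k + 1) ≤ r / 12 := by
    rw [div_le_iff₀ (by positivity)]
    rw [div_lt_iff₀ hε] at hk1
    have h5 : (k1 : ℝ) ≤ k := by exact_mod_cast le_max_right _ _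
    nlinarith
  linarith

end Pool.Agent.R202.WS
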