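import Mathlib

/-!
# Vandermonde blocks
-/

namespace Pool.Agent.R202.WS

open Matrix

variable {𝕜 : Type*} [RCLike 𝕜]

/-- node -/
def nd (𝕜 : Type*) [RCLike 𝕜] {c : ℕ} (j : Fin c) : 𝕜 := ((j : ℕ) : 𝕜)

theorem nd_inj {c : ℕ} : Function.Injective (nd 𝕜 : Fin c → 𝕜) := by
  intro i j h
  have : ((i : ℕ) : 𝕜) = ((j : ℕ) : 𝕜) := h
  exact Fin.ext (Nat.cast_injective this)

/-- uniform inversion of `w × w` Vandermonde minors -/
theorem vm (𝕜 : Type*) [RCLike 𝕜] (c w : ℕ) : ∃ K : ℝ, 0 ≤ K ∧ ∀ e : Fin w → Fin c, Function.Injective e →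
    (∀ (γ : Fin w → 𝕜) (M : ℝ), (∀ p, ‖γ p‖ ≤ M) → ∃ b : Fin w → 𝕜,
      (∀ p : Fin w, ∑ a, b a * nd 𝕜 (e a) ^ (p : ℕ) = γ p) ∧ ∀ a, ‖b a‖ ≤ K * M) ∧
    (∀ (b : Fin w → 𝕜) (M : ℝ), (∀ p : Fin w, ‖∑ a, b a * nd 𝕜 (e a) ^ (p : ℕ)‖ ≤ M) →
      ∀ a, ‖b a‖ ≤ K * M) := by
  classical
  let V : (Fin w → Fin c) → Matrix (Fin w) (Fin w) 𝕜 := fun e => vandermonde (fun a => nd 𝕜 (e a))
  let K : ℝ := ∑ e : Fin w → Fin c, ∑ p, ∑ a, ‖(V e)⁻¹ p a‖
  have hK : 0 ≤ K := Finset.sum_nonneg fun e _ => Finset.sum_nonneg fun p _ =>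
    Finset.sum_nonneg fun a _ => norm_nonneg _
  refine ⟨K, hK, fun e he => ?_⟩
  have hdet : IsUnit (V e).det := by
    rw [isUnit_iff_ne_zero]
    exact det_vandermonde_ne_zero_iff.2 (nd_inj.comp he)
  have hKe : ∀ a, ∑ p, ‖(V e)⁻¹ p a‖ ≤ K := by
    intro a
    calc ∑ p, ‖(V e)⁻¹ p a‖ ≤ ∑ p, ∑ a, ‖(V e)⁻¹ p a‖ :=
          Finset.sum_le_sum fun p _ => Finset.single_le_sum (f := fun a => ‖(V e)⁻¹ p a‖)
            (fun a _ => norm_nonneg _) (Finset.mem_univ a)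
      _ ≤ K := Finset.single_le_sum (f := fun e : Fin w → Fin c => ∑ p, ∑ a, ‖(V e)⁻¹ p a‖)
          (fun e _ => Finset.sum_nonneg fun p _ => Finset.sum_nonneg fun a _ => norm_nonneg _)
          (Finset.mem_univ e)
  have hbd : ∀ (γ : Fin w → 𝕜) (M : ℝ), (∀ p, ‖γ p‖ ≤ M) → ∀ a, ‖(γ ᵥ* (V e)⁻¹) a‖ ≤ K * M := by
    intro γ M hγ a
    have hM : 0 ≤ M := by
      exact (norm_nonneg _).trans (hγ a)
    calc ‖(γ ᵥ* (V e)⁻¹) a‖ = ‖∑ p, γ p * (V e)⁻¹ p a‖ := rfl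
      _ ≤ ∑ p, ‖γ p * (V e)⁻¹ p a‖ := norm_sum_le _ _
      _ ≤ ∑ p, M * ‖(V e)⁻¹ p a‖ := by
          refine Finset.sum_le_sum fun p _ => ?_
          rw [norm_mul]
          exact mul_le_mul_of_nonneg_right (hγ p) (norm_nonneg _)
      _ = (∑ p, ‖(V e)⁻¹ p a‖) * M := by rw [← Finset.mul_sum, mul_comm]
      _ ≤ K * M := mul_le_mul_of_nonneg_right (hKe a) hM
  have hV : ∀ (b : Fin w → 𝕜) (p : Fin w), (b ᵥ* (V e)) p = ∑ a, b a * nd 𝕜 (e a) ^ (p : ℕ) := by
    intro b p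
    rfl
  constructor
  · intro γ M hγ
    refine ⟨γ ᵥ* (V e)⁻¹, fun p => ?_, hbd γ M hγ⟩
    rw [← hV, vecMul_vecMul, nonsing_inv_mul _ hdet, vecMul_one]
  · intro b M hb a
    have h1 : b = (b ᵥ* V e) ᵥ* (V e)⁻¹ := by
      rw [vecMul_vecMul, mul_nonsing_inv _ hdet, vecMul_one]
    rw [h1]
    exact hbd _ M (fun p => by rw [hV]; exact hb p) a

/-- the weights -/
noncomputable def wt (𝕜 : Type*) [RCLike 𝕜] (w : ℕ) (δ : ℝ) (p : ℕ) : 𝕜 :=
  if p < w then 1 else (δ : 𝕜)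

/-- the block matrix -/
noncomputable def Bm (𝕜 : Type*) [RCLike 𝕜] (c w : ℕ) (δ : ℝ) : Matrix (Fin c) (Fin c) 𝕜 :=
  Matrix.of fun j p => nd 𝕜 j ^ (p : ℕ) * wt 𝕜 w δ p

theorem Bm_unit (c w : ℕ) {δ : ℝ} (hδ : 0 < δ) : IsUnit (Bm 𝕜 c w δ).det := by
  classical
  have h : Bm 𝕜 c w δ = vandermonde (nd 𝕜 : Fin c → 𝕜) * diagonal (fun p : Fin c => wt 𝕜 w δ p) := by
    ext j p
    rw [mul_diagonal]
    rfl
  rw [h, det_mul, det_diagonal]
  refine IsUnit.mul ?_ ?_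
  · rw [isUnit_iff_ne_zero]
    exact det_vandermonde_ne_zero_iff.2 nd_inj
  · rw [isUnit_iff_ne_zero, Finset.prod_ne_zero_iff]
    intro p _
    unfold wt
    split_ifs
    · exact one_ne_zero
    · exact_mod_cast hδ.ne'

/-- the key estimates of a block -/
theorem block (c w : ℕ) (hwc : w ≤ c) {X : Type*} [NormedAddCommGroup X] [NormedSpace 𝕜 X]
    (g : Fin c → X) {η : ℝ} (hη : 0 < η) : ∃ B : Matrix (Fin c) (Fin c) 𝕜, IsUnit B.det ∧
    (∀ A : Finset (Fin c), w ≤ A.card → ∀ (γ : Fin c → 𝕜) (M : ℝ),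
      (∀ p : Fin c, (p : ℕ) < w → ‖γ p‖ ≤ M) → 0 ≤ M →
      ∃ β : Fin c → 𝕜, (∀ j, j ∉ A → β j = 0) ∧
        ‖∑ j, β j • ∑ p, B j p • g p - ∑ p : Fin c, (if (p : ℕ) < w then γ p else 0) • g p‖ ≤ η * M) ∧
    (∀ A : Finset (Fin c), A.card ≤ w → ∀ (β γ : Fin c → 𝕜) (M : ℝ), (∀ j, j ∉ A → β j = 0) →
      (∀ p, ∑ j, β j * B j p = γ p) →
      (∀ p : Fin c, (p : ℕ) < w → ‖γ p‖ ≤ M) → 0 ≤ M →
        ‖∑ p, γ p • g p - ∑ p : Fin c, (if (p : ℕ) < w then γ p else 0) • g p‖ ≤ η * M) := by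
  classical
  obtain ⟨K, hK, hKe⟩ := vm 𝕜 c w
  set D : ℝ := ∑ p : Fin c, (∑ j : Fin c, ‖nd 𝕜 j ^ (p : ℕ)‖) * ‖g p‖ with hD
  have hD0 : 0 ≤ D := Finset.sum_nonneg fun p _ =>
    mul_nonneg (Finset.sum_nonneg fun _ _ => norm_nonneg _) (norm_nonneg _)
  obtain ⟨δ, hδ, hδη⟩ : ∃ δ : ℝ, 0 < δ ∧ δ * (K * D) ≤ η := by
    refine ⟨η / (K * D + 1), by positivity, ?_⟩
    rw [div_mul_eq_mul_div, div_le_iff₀ (by positivity)]
    nlinarith [mul_nonneg hK hD0]
  -- common estimate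
  have main : ∀ (e : Fin w → Fin c), Function.Injective e → ∀ (b : Fin w → 𝕜) (M : ℝ), 0 ≤ M →
      (∀ a, ‖b a‖ ≤ K * M) → ∀ (γ : Fin c → 𝕜),
      (∀ p : Fin c, ∑ a, b a * Bm 𝕜 c w δ (e a) p = γ p) →
      ‖∑ p, γ p • g p - ∑ p : Fin c, (if (p : ℕ) < w then γ p else 0) • g p‖ ≤ η * M := by
    intro e he b M hM hb γ hγ
    rw [← Finset.sum_sub_distrib]
    calc ‖∑ p : Fin c, (γ p • g p - (if (p : ℕ) < w then γ p else 0) • g p)‖
        ≤ ∑ p : Fin c, ‖γ p • g p - (if (p : ℕ) < w then γ p else 0) • g p‖ := norm_sum_le _ _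
      _ ≤ ∑ p : Fin c, (δ * (K * M)) * ((∑ j : Fin c, ‖nd 𝕜 j ^ (p : ℕ)‖) * ‖g p‖) := by
          refine Finset.sum_le_sum fun p _ => ?_
          split_ifs with hp
          · rw [sub_self, norm_zero]
            have := mul_nonneg (Finset.sum_nonneg fun (j : Fin c) (_ : j ∈ Finset.univ) =>
              norm_nonneg (nd 𝕜 j ^ (p : ℕ))) (norm_nonneg (g p))
            positivity
          · rw [zero_smul, sub_zero, norm_smul, ← mul_assoc]
            refine mul_le_mul_of_nonneg_right ?_ (norm_nonneg _)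
            rw [← hγ p]
            calc ‖∑ a, b a * Bm 𝕜 c w δ (e a) p‖ ≤ ∑ a, ‖b a * Bm 𝕜 c w δ (e a) p‖ :=
                  norm_sum_le _ _
              _ ≤ ∑ a, (δ * (K * M)) * ‖nd 𝕜 (e a) ^ (p : ℕ)‖ := by
                  refine Finset.sum_le_sum fun a _ => ?_
                  have h1 : Bm 𝕜 c w δ (e a) p = nd 𝕜 (e a) ^ (p : ℕ) * (δ : 𝕜) := by
                    show nd 𝕜 (e a) ^ (p : ℕ) * wt 𝕜 w δ p = _
                    unfold wt
                    rw [if_neg hp]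
                  rw [h1, norm_mul, norm_mul, RCLike.norm_ofReal, abs_of_pos hδ]
                  have := hb a
                  have h2 : 0 ≤ ‖nd 𝕜 (e a) ^ (p : ℕ)‖ := norm_nonneg _
                  calc ‖b a‖ * (‖nd 𝕜 (e a) ^ (p : ℕ)‖ * δ)
                      ≤ (K * M) * (‖nd 𝕜 (e a) ^ (p : ℕ)‖ * δ) :=
                        mul_le_mul_of_nonneg_right this (by positivity)
                    _ = _ := by ring
              _ = (δ * (K * M)) * ∑ a, ‖nd 𝕜 (e a) ^ (p : ℕ)‖ := by rw [← Finset.mul_sum]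
              _ ≤ (δ * (K * M)) * ∑ j : Fin c, ‖nd 𝕜 j ^ (p : ℕ)‖ := by
                  refine mul_le_mul_of_nonneg_left ?_ (by positivity)
                  rw [← Finset.sum_image (f := fun j => ‖nd 𝕜 j ^ (p : ℕ)‖) (s := Finset.univ)
                    (g := e) (fun x _ y _ h => he h)]
                  exact Finset.sum_le_sum_of_subset_of_nonneg (Finset.subset_univ _)
                    (fun _ _ _ => norm_nonneg _)
      _ = (δ * (K * D)) * M := by rw [← Finset.mul_sum, ← hD]; ring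
      _ ≤ η * M := mul_le_mul_of_nonneg_right hδη hM
  refine ⟨Bm 𝕜 c w δ, Bm_unit c w hδ, ?_, ?_⟩
  · intro A hA γ M hγ hM
    obtain ⟨A', hA'A, hA'⟩ := Finset.exists_subset_card_eq hA
    let e : Fin w → Fin c := fun a => (A'.equivFinOfCardEq hA').symm a
    have he : Function.Injective e := fun x y h => by
      have := Subtype.ext h
      exact (A'.equivFinOfCardEq hA').symm.injective this
    have heA : ∀ a, e a ∈ A := fun a => hA'A ((A'.equivFinOfCardEq hA').symm a).2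
    obtain ⟨b, hb1, hb2⟩ := (hKe e he).1 (fun p => γ (Fin.castLE hwc p)) M
      (fun p => hγ _ (by simp))
    let β : Fin c → 𝕜 := fun j => ∑ a, if e a = j then b a else 0
    have hβsum : ∀ (F : Fin c → X), ∑ j, β j • F j = ∑ a, b a • F (e a) := by
      intro F
      simp only [β, Finset.sum_smul]
      rw [Finset.sum_comm]
      refine Finset.sum_congr rfl fun a _ => ?_
      rw [Finset.sum_eq_single (e a)]
      · rw [if_pos rfl]
      · intro j _ hj
        rw [if_neg (Ne.symm hj), zero_smul]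
      · intro h; exact absurd (Finset.mem_univ _) h
    refine ⟨β, fun j hj => ?_, ?_⟩
    · refine Finset.sum_eq_zero fun a _ => ?_
      rw [if_neg]
      rintro rfl
      exact hj (heA a)
    · rw [hβsum]
      let γ' : Fin c → 𝕜 := fun p => ∑ a, b a * Bm 𝕜 c w δ (e a) p
      have h1 : ∑ a, b a • ∑ p, Bm 𝕜 c w δ (e a) p • g p = ∑ p, γ' p • g p := by
        simp only [γ', Finset.sum_smul, Finset.smul_sum, smul_smul]
        rw [Finset.sum_comm]
      have h2 : ∀ p : Fin c, (p : ℕ) < w → γ' p = γ p := by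
        intro p hp
        have h3 := hb1 ⟨p, hp⟩
        have h4 : Fin.castLE hwc ⟨p, hp⟩ = p := Fin.ext rfl
        rw [h4] at h3
        rw [← h3]
        refine Finset.sum_congr rfl fun a _ => ?_
        show b a * (nd 𝕜 (e a) ^ (p : ℕ) * wt 𝕜 w δ p) = _
        unfold wt
        rw [if_pos hp, mul_one]
      have h5 := main e he b M hM hb2 γ' (fun p => rfl)
      rw [h1]
      have h6 : ∑ p : Fin c, (if (p : ℕ) < w then γ p else 0) • g p =
          ∑ p : Fin c, (if (p : ℕ) < w then γ' p else 0) • g p := by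
        refine Finset.sum_congr rfl fun p _ => ?_
        split_ifs with hp
        · rw [h2 p hp]
        · rfl
      rw [h6]
      exact h5
  · intro A hA β γ M hβ hβγ hγ hM
    obtain ⟨A', hAA', hA'⟩ := Finset.exists_superset_card_eq (α := Fin c) hA (by simpa using hwc)
    let e : Fin w → Fin c := fun a => (A'.equivFinOfCardEq hA').symm a
    have he : Function.Injective e := fun x y h => by
      have := Subtype.ext h
      exact (A'.equivFinOfCardEq hA').symm.injective this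
    have hsum : ∀ p : Fin c, ∑ a, β (e a) * Bm 𝕜 c w δ (e a) p = γ p := by
      intro p
      rw [← hβγ p, ← Finset.sum_image (f := fun j => β j * Bm 𝕜 c w δ j p) (s := Finset.univ)
        (g := e) (fun x _ y _ h => he h)]
      refine Finset.sum_subset (Finset.subset_univ _) fun j _ hj => ?_
      have : j ∉ A := by
        intro hjA
        apply hj
        rw [Finset.mem_image]
        refine ⟨(A'.equivFinOfCardEq hA') ⟨j, hAA' hjA⟩, Finset.mem_univ _, ?_⟩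
        simp [e]
      rw [hβ j this, zero_mul]
    have hb : ∀ a, ‖β (e a)‖ ≤ K * M := by
      refine (hKe e he).2 (fun a => β (e a)) M (fun p => ?_)
      have h1 := hsum (Fin.castLE hwc p)
      have h2 : ∑ a, β (e a) * nd 𝕜 (e a) ^ (p : ℕ) = γ (Fin.castLE hwc p) := by
        rw [← h1]
        refine Finset.sum_congr rfl fun a _ => ?_
        show _ = β (e a) * (nd 𝕜 (e a) ^ (p : ℕ) * wt 𝕜 w δ p)
        unfold wt
        rw [if_pos p.2, mul_one]
      rw [h2]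
      exact hγ _ p.2
    exact main e he (fun a => β (e a)) M hM hb γ hsum

end Pool.Agent.R202.WS
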