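import Pool.Agent.R202.WS.A
import Pool.Agent.R202.WS.V

/-!
# Windows
-/

namespace Pool.Agent.R202.WS

open Set TopologicalSpace

variable {𝕜 : Type*} [RCLike 𝕜]

theorem mem_initial {X : Type*} [AddCommGroup X] [Module 𝕜 X] (e : ℕ → X) {x : X}
    (hx : x ∈ Submodule.span 𝕜 (Set.range e)) :
    ∃ n, x ∈ Submodule.span 𝕜 (e '' {i | i < n}) := by
  induction hx using Submodule.span_induction with
  | mem x h =>
    obtain ⟨i, rfl⟩ := h
    exact ⟨i + 1, Submodule.subset_span ⟨i, Nat.lt_succ_self i, rfl⟩⟩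
  | zero => exact ⟨0, Submodule.zero_mem _⟩
  | add x y _ _ hx hy =>
    obtain ⟨n1, h1⟩ := hx
    obtain ⟨n2, h2⟩ := hy
    refine ⟨max n1 n2, Submodule.add_mem _ ?_ ?_⟩
    · exact Submodule.span_mono (Set.image_mono fun i (hi : i < n1) => lt_max_of_lt_left hi) h1
    · exact Submodule.span_mono (Set.image_mono fun i (hi : i < n2) => lt_max_of_lt_right hi) h2
  | smul c x _ hx =>
    obtain ⟨n, h⟩ := hx
    exact ⟨n, Submodule.smul_mem _ c h⟩

theorem window {X : Type*} [NormedAddCommGroup X] [NormedSpace 𝕜 X] (e : ℕ → X)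
    (φ : ℕ → StrongDual 𝕜 X) (hb : ∀ i j, φ i (e j) = if i = j then 1 else 0)
    (hd : Dense (Submodule.span 𝕜 (Set.range e) : Set X)) (m : ℕ) :
    ∃ n, m < n ∧ ∀ x : X, ∃ x' ∈ Submodule.span 𝕜 (e '' {i | i < n}),
      (∀ i < m, φ i x' = φ i x) ∧ ‖x'‖ ≤ 2 * ‖x‖ := by
  classical
  set Se : ℝ := ∑ i ∈ Finset.range m, ‖e i‖ with hSe
  set Sφ : ℝ := ∑ i ∈ Finset.range m, ‖φ i‖ with hSφ
  have hSe0 : 0 ≤ Se := Finset.sum_nonneg fun _ _ => norm_nonneg _
  have hSφ0 : 0 ≤ Sφ := Finset.sum_nonneg fun _ _ => norm_nonneg _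
  set ρ : ℝ := 1 / (2 * (1 + Se)) with hρ
  have hρ0 : 0 < ρ := by positivity
  have hρSe : ρ * Se ≤ 1 / 2 := by
    rw [hρ, div_mul_eq_mul_div, one_mul, div_le_iff₀ (by positivity)]
    nlinarith
  set τ : ℝ := min (1 / 2) (ρ / (2 * (1 + Sφ))) with hτ
  have hτ0 : 0 < τ := lt_min (by norm_num) (by positivity)
  have hτ1 : τ ≤ 1 / 2 := min_le_left _ _
  have hτ2 : τ * (1 + Sφ) ≤ ρ / 2 := by
    calc τ * (1 + Sφ) ≤ (ρ / (2 * (1 + Sφ))) * (1 + Sφ) :=
          mul_le_mul_of_nonneg_right (min_le_right _ _) (by positivity)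
      _ = ρ / 2 := by field_simp
  let Φ : X → (Fin m → 𝕜) := fun x i => φ i x
  set K0 : Set (Fin m → 𝕜) := Φ '' {x | ‖x‖ ≤ 1} with hK0
  have htb : TotallyBounded K0 := by
    refine (isCompact_closedBall (0 : Fin m → 𝕜) Sφ).totallyBounded.subset ?_
    rintro _ ⟨x, hx, rfl⟩
    rw [mem_closedBall_zero_iff, pi_norm_le_iff_of_nonneg hSφ0]
    intro i
    calc ‖φ i x‖ ≤ ‖φ i‖ * ‖x‖ := (φ i).le_opNorm x
      _ ≤ ‖φ i‖ * 1 := mul_le_mul_of_nonneg_left hx (norm_nonneg _)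
      _ = ‖φ i‖ := mul_one _
      _ ≤ Sφ := Finset.single_le_sum (f := fun i => ‖φ i‖) (fun _ _ => norm_nonneg _)
          (Finset.mem_range.2 i.2)
  obtain ⟨T, hTK, hTfin, hT⟩ := Metric.finite_approx_of_totallyBounded htb (ρ / 2) (by positivity)
  -- for each centre an approximating vector in the span
  have hex : ∀ t ∈ T, ∃ n, ∃ x' ∈ Submodule.span 𝕜 (e '' {i | i < n}), ‖x'‖ ≤ 1 + τ ∧
      dist t (Φ x') ≤ ρ / 2 := by
    intro t ht
    obtain ⟨x, hx, rfl⟩ := hTK ht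
    obtain ⟨x', hx', hd'⟩ := Metric.mem_closure_iff.1 (hd x) τ hτ0
    obtain ⟨n, hn⟩ := mem_initial e hx'
    rw [dist_eq_norm] at hd'
    refine ⟨n, x', hn, ?_, ?_⟩
    · calc ‖x'‖ = ‖x - (x - x')‖ := by rw [sub_sub_cancel]
        _ ≤ ‖x‖ + ‖x - x'‖ := norm_sub_le _ _
        _ ≤ 1 + τ := add_le_add hx hd'.le
    · rw [dist_eq_norm, pi_norm_le_iff_of_nonneg (by positivity)]
      intro i
      have h1 : (Φ x - Φ x') i = φ i (x - x') := by
        show φ i x - φ i x' = _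
        rw [map_sub]
      rw [h1]
      calc ‖φ i (x - x')‖ ≤ ‖φ i‖ * ‖x - x'‖ := (φ i).le_opNorm _
        _ ≤ ‖φ i‖ * τ := mul_le_mul_of_nonneg_left hd'.le (norm_nonneg _)
        _ ≤ Sφ * τ := mul_le_mul_of_nonneg_right
            (Finset.single_le_sum (f := fun i => ‖φ i‖) (fun _ _ => norm_nonneg _)
              (Finset.mem_range.2 i.2)) hτ0.le
        _ ≤ τ * (1 + Sφ) := by nlinarith
        _ ≤ ρ / 2 := hτ2
  choose! nn v hv1 hv2 hv3 using hex
  obtain ⟨n0, hn0⟩ : ∃ n0, ∀ t ∈ T, nn t ≤ n0 := by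
    obtain ⟨n0, hn0⟩ := (hTfin.image nn).bddAbove
    exact ⟨n0, fun t ht => hn0 ⟨t, ht, rfl⟩⟩
  refine ⟨max n0 (m + 1), lt_of_lt_of_le (Nat.lt_succ_self m) (le_max_right _ _), ?_⟩
  set n := max n0 (m + 1) with hn
  -- unit ball version
  have unit : ∀ x : X, ‖x‖ ≤ 1 → ∃ x' ∈ Submodule.span 𝕜 (e '' {i | i < n}),
      (∀ i < m, φ i x' = φ i x) ∧ ‖x'‖ ≤ 2 := by
    intro x hx
    have hxK : Φ x ∈ K0 := ⟨x, hx, rfl⟩
    obtain ⟨t, ht, hxt⟩ := Set.mem_iUnion₂.1 (hT hxK)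
    have hdist : dist (Φ x) (Φ (v t)) ≤ ρ := by
      calc dist (Φ x) (Φ (v t)) ≤ dist (Φ x) t + dist t (Φ (v t)) := dist_triangle _ _ _
        _ ≤ ρ / 2 + ρ / 2 := add_le_add (Metric.mem_ball.1 hxt).le (hv3 t ht)
        _ = ρ := by ring
    have hco : ∀ i < m, ‖φ i x - φ i (v t)‖ ≤ ρ := by
      intro i hi
      rw [dist_eq_norm, pi_norm_le_iff_of_nonneg hρ0.le] at hdist
      exact hdist ⟨i, hi⟩
    have hsum : ‖∑ i ∈ Finset.range m, (φ i x - φ i (v t)) • e i‖ ≤ 1 / 2 := by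
      calc ‖∑ i ∈ Finset.range m, (φ i x - φ i (v t)) • e i‖
          ≤ ∑ i ∈ Finset.range m, ‖(φ i x - φ i (v t)) • e i‖ := norm_sum_le _ _
        _ ≤ ∑ i ∈ Finset.range m, ρ * ‖e i‖ := by
            refine Finset.sum_le_sum fun i hi => ?_
            rw [norm_smul]
            exact mul_le_mul_of_nonneg_right (hco i (Finset.mem_range.1 hi)) (norm_nonneg _)
        _ = ρ * Se := by rw [← Finset.mul_sum]
        _ ≤ 1 / 2 := hρSe
    refine ⟨v t + ∑ i ∈ Finset.range m, (φ i x - φ i (v t)) • e i, ?_, ?_, ?_⟩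
    · refine Submodule.add_mem _ ?_ ?_
      · exact Submodule.span_mono (Set.image_mono fun i (hi : i < nn t) =>
          lt_of_lt_of_le hi ((hn0 t ht).trans (le_max_left _ _))) (hv1 t ht)
      · refine Submodule.sum_mem _ fun i hi => Submodule.smul_mem _ _ (Submodule.subset_span
          ⟨i, ?_, rfl⟩)
        have := Finset.mem_range.1 hi
        show i < n
        omega
    · intro i hi
      rw [map_add, map_sum, Finset.sum_eq_single i]
      · rw [map_smul, hb, if_pos rfl, smul_eq_mul, mul_one]; ring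
      · intro j _ hj
        rw [map_smul, hb, if_neg (Ne.symm hj), smul_zero]
      · intro h; exact absurd (Finset.mem_range.2 hi) h
    · calc _ ≤ ‖v t‖ + ‖∑ i ∈ Finset.range m, (φ i x - φ i (v t)) • e i‖ := norm_add_le _ _
        _ ≤ (1 + τ) + 1 / 2 := add_le_add (hv2 t ht) hsum
        _ ≤ 2 := by linarith
  intro x
  by_cases hx : x = 0
  · refine ⟨0, Submodule.zero_mem _, fun i _ => by rw [hx], by simp⟩
  · have hpos : 0 < ‖x‖ := norm_pos_iff.2 hx
    have hne : ((‖x‖ : ℝ) : 𝕜) ≠ 0 := by exact_mod_cast hpos.ne'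
    obtain ⟨z, hz1, hz2, hz3⟩ := unit (((‖x‖ : ℝ) : 𝕜)⁻¹ • x) (by
      rw [norm_smul, norm_inv, RCLike.norm_ofReal, abs_norm, inv_mul_cancel₀ hpos.ne'])
    refine ⟨((‖x‖ : ℝ) : 𝕜) • z, Submodule.smul_mem _ _ hz1, fun i hi => ?_, ?_⟩
    · rw [map_smul, hz2 i hi, map_smul, smul_smul, mul_inv_cancel₀ hne, one_smul]
    · rw [norm_smul, RCLike.norm_ofReal, abs_norm, mul_comm]
      exact mul_le_mul_of_nonneg_right hz3 hpos.le

variable {E : Type*} [NormedAddCommGroup E] [NormedSpace 𝕜 E]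

/-- window for functionals -/
theorem window_dual (y : ℕ → E) (g : ℕ → StrongDual 𝕜 E)
    (hb : ∀ i j, g i (y j) = if i = j then 1 else 0)
    (hd : Dense (Submodule.span 𝕜 (Set.range g) : Set (StrongDual 𝕜 E))) (m : ℕ) :
    ∃ n, m < n ∧ ∀ φ : StrongDual 𝕜 E, ∃ ψ ∈ Submodule.span 𝕜 (g '' {i | i < n}),
      (∀ i < m, ψ (y i) = φ (y i)) ∧ ‖ψ‖ ≤ 2 * ‖φ‖ := by
  have h := window (X := StrongDual 𝕜 E) g
    (fun i => NormedSpace.inclusionInDoubleDual 𝕜 E (y i)) (by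
      intro i j
      rw [NormedSpace.dual_def, hb]
      by_cases hij : i = j
      · rw [if_pos hij, if_pos hij.symm]
      · rw [if_neg hij, if_neg (Ne.symm hij)]) hd m
  obtain ⟨n, hn, h⟩ := h
  refine ⟨n, hn, fun φ => ?_⟩
  obtain ⟨ψ, h1, h2, h3⟩ := h φ
  refine ⟨ψ, h1, fun i hi => ?_, h3⟩
  have := h2 i hi
  rwa [NormedSpace.dual_def, NormedSpace.dual_def] at this

/-- separation of initial and final spans -/
theorem separation (y : ℕ → E) (g : ℕ → StrongDual 𝕜 E)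
    (hb : ∀ i j, g i (y j) = if i = j then 1 else 0)
    (hd : Dense (Submodule.span 𝕜 (Set.range y) : Set E)) (n : ℕ) :
    ∃ m, n ≤ m ∧ ∀ u ∈ Submodule.span 𝕜 (g '' {i | i < n}),
      ∀ w ∈ Submodule.span 𝕜 (g '' {i | m ≤ i}), ‖u‖ ≤ 2 * ‖u + w‖ := by
  obtain ⟨m, hm, h⟩ := window y g hb hd n
  refine ⟨m, hm.le, fun u hu w hw => ?_⟩
  refine u.opNorm_le_bound (by positivity) fun v => ?_
  obtain ⟨v', h1, h2, h3⟩ := h v
  have hu' : u v' = u v := by
    induction hu using Submodule.span_induction with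
    | mem u h => obtain ⟨i, hi, rfl⟩ := h; exact h2 i hi
    | zero => simp
    | add a b _ _ ha hb => rw [add_apply, add_apply, ha, hb]
    | smul c a _ ha => rw [smul_apply, smul_apply, ha]
  have hgi : ∀ i, m ≤ i → g i v' = 0 := by
    intro i hi
    clear hu' h2 h3
    induction h1 using Submodule.span_induction with
    | mem a ha =>
      obtain ⟨j, hj, rfl⟩ := ha
      have h4 : j < m := hj
      rw [hb, if_neg (by omega)]
    | zero => simp
    | add a b _ _ ha hb => rw [map_add, ha, hb, add_zero]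
    | smul c a _ ha => rw [map_smul, ha, smul_zero]
  have hw' : w v' = 0 := by
    induction hw using Submodule.span_induction with
    | mem u h =>
      obtain ⟨i, hi, rfl⟩ := h
      exact hgi i hi
    | zero => simp
    | add a b _ _ ha hb => rw [add_apply, ha, hb, add_zero]
    | smul c a _ ha => rw [smul_apply, ha, smul_zero]
  calc ‖u v‖ = ‖(u + w) v'‖ := by rw [add_apply, hw', add_zero, hu']
    _ ≤ ‖u + w‖ * ‖v'‖ := (u + w).le_opNorm _
    _ ≤ ‖u + w‖ * (2 * ‖v‖) := mul_le_mul_of_nonneg_left h3 (norm_nonneg _)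
    _ = 2 * ‖u + w‖ * ‖v‖ := by ring

end Pool.Agent.R202.WS
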